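import Pool.Agent.H38R2.CG.Stubs

/-!
P_CC1: elementary symmetric functions of numbers with small sum.
-/

set_option autoImplicit false

open Filter Topology

namespace Pool.Agent.Run7.h811.CG

open Pool.Agent.H38R2.CG

open Polynomial in
theorem iterDeriv_eval (Q : ℂ[X]) (k : ℕ) :
    iteratedDeriv k (fun z => Q.eval z) = fun z => (derivative^[k] Q).eval z := by
  induction k with
  | zero => simp
  | succ k ih =>
    rw [iteratedDeriv_succ, ih]
    funext z
    rw [Polynomial.deriv, Function.iterate_succ', Function.comp_apply]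

open Polynomial in
theorem coeff_bound (Q : ℂ[X]) (k : ℕ) {r C : ℝ} (hr : 0 < r)
    (hC : ∀ z : ℂ, ‖z‖ = r → ‖Q.eval z‖ ≤ C) : ‖Q.coeff k‖ ≤ C / r ^ k := by
  have h1 := Complex.norm_iteratedDeriv_le_of_forall_mem_sphere_norm_le (f := fun z => Q.eval z)
    (c := 0) k hr Q.differentiable.diffContOnCl (fun z hz => hC z (by simpa using hz))
  have h2 : iteratedDeriv k (fun z => Q.eval z) 0 = (k.factorial : ℂ) * Q.coeff k := by
    rw [iterDeriv_eval]
    show (derivative^[k] Q).eval 0 = _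
    rw [← Polynomial.coeff_zero_eq_eval_zero, Polynomial.coeff_iterate_derivative, zero_add,
      Nat.descFactorial_self, nsmul_eq_mul]
  rw [h2, norm_mul, Complex.norm_natCast] at h1
  have hk : (0 : ℝ) < k.factorial := by exact_mod_cast k.factorial_pos
  rw [mul_div_assoc] at h1
  exact le_of_mul_le_mul_left h1 hk

open Polynomial in
theorem esymm_coeff (P : Finset ℕ) (x : ℕ → ℂ) (k : ℕ) :
    (∏ p ∈ P, (1 + Polynomial.C (x p) * X) : ℂ[X]).coeff k
      = ∑ s ∈ P.powersetCard k, ∏ p ∈ s, x p := by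
  rw [Finset.prod_one_add]
  rw [Polynomial.finsetSum_coeff]
  have h1 : ∀ s ∈ P.powerset, (∏ p ∈ s, (Polynomial.C (x p) * X) : ℂ[X]).coeff k
      = if s.card = k then ∏ p ∈ s, x p else 0 := by
    intro s _
    rw [Finset.prod_mul_distrib, Finset.prod_const, ← map_prod, Polynomial.coeff_C_mul_X_pow]
    simp only [eq_comm]
  rw [Finset.sum_congr rfl h1, ← Finset.sum_filter]
  refine Finset.sum_congr ?_ fun _ _ => rfl
  ext s
  simp [Finset.mem_powersetCard]

theorem norm_one_add_le (w : ℂ) : ‖1 + w‖ ≤ Real.exp (w.re + ‖w‖ ^ 2 / 2) := by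
  have h1 : ‖1 + w‖ ^ 2 ≤ Real.exp (w.re + ‖w‖ ^ 2 / 2) ^ 2 := by
    rw [← Real.exp_nat_mul]
    have h2 : ‖1 + w‖ ^ 2 = 1 + (2 * w.re + ‖w‖ ^ 2) := by
      rw [← Complex.normSq_eq_norm_sq, ← Complex.normSq_eq_norm_sq, Complex.normSq_apply,
        Complex.normSq_apply]
      simp only [Complex.add_re, Complex.one_re, Complex.add_im, Complex.one_im]
      ring
    rw [h2]
    have h3 := Real.add_one_le_exp (2 * w.re + ‖w‖ ^ 2)
    have h4 : ((2 : ℕ) : ℝ) * (w.re + ‖w‖ ^ 2 / 2) = 2 * w.re + ‖w‖ ^ 2 := by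
      push_cast
      ring
    rw [h4]
    linarith
  exact (pow_le_pow_iff_left₀ (norm_nonneg _) (Real.exp_pos _).le two_ne_zero).1 h1

theorem prod_bound (P : Finset ℕ) (x : ℕ → ℂ) (z : ℂ) {r A : ℝ} (hz : ‖z‖ = r)
    (hx : ∀ p ∈ P, ‖x p‖ ≤ 1) (hA : ‖∑ p ∈ P, x p‖ ≤ A) :
    ‖∏ p ∈ P, (1 + x p * z)‖ ≤ Real.exp (r * A + r ^ 2 * P.card / 2) := by
  have hr : 0 ≤ r := hz ▸ norm_nonneg z
  rw [norm_prod]
  refine (Finset.prod_le_prod (fun p _ => norm_nonneg _) (fun p _ => norm_one_add_le _)).trans ?_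
  rw [← Real.exp_sum]
  refine Real.exp_le_exp.2 ?_
  rw [Finset.sum_add_distrib]
  refine add_le_add ?_ ?_
  · rw [← Complex.re_sum, ← Finset.sum_mul]
    refine (Complex.re_le_norm _).trans ?_
    rw [norm_mul, hz, mul_comm]
    exact mul_le_mul_of_nonneg_left hA hr
  · calc ∑ p ∈ P, ‖x p * z‖ ^ 2 / 2 ≤ ∑ p ∈ P, r ^ 2 / 2 := by
          refine Finset.sum_le_sum fun p hp => ?_
          rw [norm_mul, hz, mul_pow]
          have h1 : ‖x p‖ ^ 2 ≤ 1 := pow_le_one₀ (norm_nonneg _) (hx p hp)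
          have h2 : 0 ≤ r ^ 2 := sq_nonneg r
          nlinarith
      _ = _ := by
          rw [Finset.sum_const, nsmul_eq_mul]
          ring

theorem stirling_upper {k : ℕ} (hk : 1 ≤ k) :
    (k.factorial : ℝ) ≤ Real.exp 1 * √(k : ℝ) * (k / Real.exp 1) ^ k := by
  obtain ⟨m, rfl⟩ : ∃ m, k = m + 1 := ⟨k - 1, by omega⟩
  have h1 : Stirling.stirlingSeq (m + 1) ≤ Stirling.stirlingSeq 1 := by
    have := Stirling.stirlingSeq'_antitone (Nat.zero_le m)
    simpa using this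
  rw [Stirling.stirlingSeq_one, Stirling.stirlingSeq] at h1
  have hk0 : (0 : ℝ) < ((m + 1 : ℕ) : ℝ) := by positivity
  have hp : 0 < √(2 * ((m + 1 : ℕ) : ℝ)) * (((m + 1 : ℕ) : ℝ) / Real.exp 1) ^ (m + 1) := by
    have := Real.exp_pos 1
    positivity
  rw [div_le_iff₀ hp] at h1
  refine h1.trans (le_of_eq ?_)
  rw [Real.sqrt_mul two_pos.le]
  have h2 : √(2 : ℝ) ≠ 0 := (Real.sqrt_pos.2 two_pos).ne'
  field_simp

theorem choose_lower {n k : ℕ} (hk : 1 ≤ k) (hkn : k ^ 2 ≤ n) :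
    (n : ℝ) ^ k ≤ 2 * (k.factorial : ℝ) * (n.choose k : ℝ) := by
  have hkn' : k ≤ n := by nlinarith
  have hn : 0 < n := by nlinarith
  have hn0 : (0 : ℝ) < n := by exact_mod_cast hn
  have h0 : (k.factorial : ℝ) * (n.choose k : ℝ) = (n.descFactorial k : ℝ) := by
    exact_mod_cast (Nat.descFactorial_eq_factorial_mul_choose n k).symm
  have h1 : ∀ j : ℕ, j ≤ k →
      (n : ℝ) ^ j * (1 - (j : ℝ) * (j - 1) / (2 * n)) ≤ (n.descFactorial j : ℝ) := by
    intro j
    induction j with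
    | zero => intro _; simp
    | succ j ih =>
      intro hj
      have ihj := ih (by omega)
      rw [Nat.descFactorial_succ]
      have hc : (((n - j : ℕ)) : ℝ) = (n : ℝ) - j := by
        rw [Nat.cast_sub (by omega)]
      rw [Nat.cast_mul, hc]
      have hj0 : (0 : ℝ) ≤ j := Nat.cast_nonneg j
      have hjn : (0 : ℝ) ≤ (n : ℝ) - j := by
        rw [← hc]
        exact Nat.cast_nonneg _
      have hb : (0 : ℝ) ≤ (j : ℝ) * (j - 1) / (2 * n) := by
        refine div_nonneg ?_ (by positivity)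
        rcases Nat.eq_zero_or_pos j with rfl | hp
        · simp
        · have : (1 : ℝ) ≤ j := by exact_mod_cast hp
          exact mul_nonneg hj0 (by linarith)
      refine le_trans ?_ (mul_le_mul_of_nonneg_left ihj hjn)
      have e1 : (n : ℝ) ^ (j + 1) * (1 - ((j + 1 : ℕ) : ℝ) * (((j + 1 : ℕ) : ℝ) - 1) / (2 * n))
          = (n : ℝ) ^ j * (n * (1 - (j : ℝ) / n - (j : ℝ) * (j - 1) / (2 * n))) := by
        push_cast
        field_simp
        ring
      have e2 : ((n : ℝ) - j) * ((n : ℝ) ^ j * (1 - (j : ℝ) * (j - 1) / (2 * n)))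
          = (n : ℝ) ^ j * (n * ((1 - (j : ℝ) / n) * (1 - (j : ℝ) * (j - 1) / (2 * n)))) := by
        field_simp
      rw [e1, e2]
      refine mul_le_mul_of_nonneg_left (mul_le_mul_of_nonneg_left ?_ hn0.le) (by positivity)
      have ha : (0 : ℝ) ≤ (j : ℝ) / n := by positivity
      nlinarith [mul_nonneg ha hb]
  have h2 := h1 k le_rfl
  have hkk : (k : ℝ) * (k - 1) / (2 * n) ≤ 1 / 2 := by
    rw [div_le_div_iff₀ (by positivity) two_pos]
    have : (k : ℝ) ^ 2 ≤ n := by exact_mod_cast hkn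
    have hk0 : (0 : ℝ) ≤ k := Nat.cast_nonneg k
    nlinarith
  rw [mul_assoc, h0]
  have hp : (0 : ℝ) ≤ (n : ℝ) ^ k := by positivity
  nlinarith

theorem T_CC1 : P_CC1 := by
  intro P x c k hx hc hc2 hk hkn hsum
  set n : ℕ := P.card with hn
  have hk0 : (0 : ℝ) < k := by exact_mod_cast hk
  have hkn' : k ≤ n := by nlinarith
  have hn1 : 0 < n := by omega
  have hn0 : (0 : ℝ) < n := by exact_mod_cast hn1
  have h1c : (1 : ℝ) / 2 ≤ 1 - c := by linarith
  have h1c0 : (0 : ℝ) < 1 - c := by linarith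
  set r : ℝ := k / ((1 - c) * n) with hr
  have hr0 : 0 < r := by positivity
  have hkk : (k : ℝ) ^ 2 ≤ n := by exact_mod_cast hkn
  rw [← esymm_coeff]
  have h1 := coeff_bound (∏ p ∈ P, (1 + Polynomial.C (x p) * Polynomial.X)) k hr0
    (C := Real.exp (r * ((1 - c) * n) + r ^ 2 * n / 2)) (by
      intro z hz
      rw [Polynomial.eval_prod]
      simp only [Polynomial.eval_add, Polynomial.eval_one, Polynomial.eval_mul, Polynomial.eval_C,
        Polynomial.eval_X]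
      exact prod_bound P x z hz hx hsum)
  refine h1.trans ?_
  have e1 : r * ((1 - c) * n) = k := by
    rw [hr]
    field_simp
  have e2 : r ^ 2 * n / 2 ≤ 2 := by
    rw [hr, div_pow, div_mul_eq_mul_div, div_div, div_le_iff₀ (by positivity)]
    have h3 : (1 : ℝ) / 4 ≤ (1 - c) ^ 2 := by nlinarith
    have h4 : (k : ℝ) ^ 2 * n ≤ n * n := mul_le_mul_of_nonneg_right hkk hn0.le
    have h5 : (1 : ℝ) / 4 * (n * n) ≤ (1 - c) ^ 2 * (n * n) :=
      mul_le_mul_of_nonneg_right h3 (by positivity)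
    nlinarith
  have h3 : Real.exp (r * ((1 - c) * n) + r ^ 2 * n / 2) ≤ Real.exp 1 ^ k * Real.exp 1 ^ 2 := by
    rw [e1, ← Real.exp_nat_mul, ← Real.exp_nat_mul, ← Real.exp_add]
    refine Real.exp_le_exp.2 ?_
    push_cast
    linarith
  have hE := Real.exp_pos 1
  have e4 : r ^ k = (k : ℝ) ^ k / ((1 - c) ^ k * (n : ℝ) ^ k) := by
    rw [hr, div_pow, mul_pow]
  have h5 : Real.exp (r * ((1 - c) * n) + r ^ 2 * n / 2) / r ^ k
      ≤ Real.exp 1 ^ k * Real.exp 1 ^ 2 / r ^ k :=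
    div_le_div_of_nonneg_right h3 (by positivity)
  refine h5.trans ?_
  rw [e4]
  have h6 := stirling_upper hk
  have h7 := choose_lower hk hkn
  rw [← hn] at *
  have hkf : (0 : ℝ) < k.factorial := by exact_mod_cast k.factorial_pos
  have hkp : (0 : ℝ) < (k : ℝ) ^ k := by positivity
  -- `(e / k) ^ k ≤ e √k / k!`
  have h8 : Real.exp 1 ^ k / (k : ℝ) ^ k ≤ Real.exp 1 * √(k : ℝ) / k.factorial := by
    rw [div_le_div_iff₀ hkp hkf]
    rw [div_pow, mul_div_assoc', le_div_iff₀ (by positivity)] at h6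
    linarith
  have h9 : (n : ℝ) ^ k / k.factorial ≤ 2 * (n.choose k : ℝ) := by
    rw [div_le_iff₀ hkf]
    linarith
  have hE3 : Real.exp 1 ^ 3 * 2 ≤ 50 := by
    have h10 := Real.exp_one_lt_d9
    have h11 : Real.exp 1 ^ 3 ≤ 2.72 ^ 3 := pow_le_pow_left₀ hE.le (by linarith) 3
    norm_num at h11 ⊢
    linarith
  have hs : 0 ≤ √(k : ℝ) := Real.sqrt_nonneg _
  have hch : (0 : ℝ) ≤ (n.choose k : ℝ) := Nat.cast_nonneg _
  calc Real.exp 1 ^ k * Real.exp 1 ^ 2 / ((k : ℝ) ^ k / ((1 - c) ^ k * (n : ℝ) ^ k))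
      = Real.exp 1 ^ 2 * (1 - c) ^ k * (n : ℝ) ^ k * (Real.exp 1 ^ k / (k : ℝ) ^ k) := by
        field_simp
    _ ≤ Real.exp 1 ^ 2 * (1 - c) ^ k * (n : ℝ) ^ k * (Real.exp 1 * √(k : ℝ) / k.factorial) :=
        mul_le_mul_of_nonneg_left h8 (by positivity)
    _ = Real.exp 1 ^ 3 * √(k : ℝ) * (1 - c) ^ k * ((n : ℝ) ^ k / k.factorial) := by ring
    _ ≤ Real.exp 1 ^ 3 * √(k : ℝ) * (1 - c) ^ k * (2 * (n.choose k : ℝ)) :=
        mul_le_mul_of_nonneg_left h9 (by positivity)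
    _ = (Real.exp 1 ^ 3 * 2) * (√(k : ℝ) * (1 - c) ^ k * (n.choose k : ℝ)) := by ring
    _ ≤ 50 * (√(k : ℝ) * (1 - c) ^ k * (n.choose k : ℝ)) :=
        mul_le_mul_of_nonneg_right hE3 (by positivity)
    _ = _ := by ring

end Pool.Agent.Run7.h811.CG
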