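import Pool.Agent.H38R2.CG2.Stubs

/-!
The Fejer kernel: P2_FJ, P2_FS, P2_OMC.
-/

set_option autoImplicit false

open MeasureTheory Set Filter Topology

namespace Pool.Agent.Run7.h811.CG

open Pool.Agent.H38R2.CG Pool.Agent.H38R2.CG2

theorem tent_int (f : ℝ → ℝ) (hf : Continuous f) :
    ∫ ξ in (-1 : ℝ)..1, (1 - |ξ|) * f ξ
      = (∫ ξ in (-1 : ℝ)..0, (1 + ξ) * f ξ) + ∫ ξ in (0 : ℝ)..1, (1 - ξ) * f ξ := by
  have hc : Continuous fun ξ : ℝ => (1 - |ξ|) * f ξ :=
    (continuous_const.sub continuous_abs).mul hf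
  rw [← intervalIntegral.integral_add_adjacent_intervals (b := 0)
    (hc.intervalIntegrable _ _) (hc.intervalIntegrable _ _)]
  congr 1
  · refine intervalIntegral.integral_congr fun ξ hξ => ?_
    rw [uIcc_of_le (by norm_num)] at hξ
    show (1 - |ξ|) * f ξ = (1 + ξ) * f ξ
    rw [abs_of_nonpos hξ.2]
    ring
  · refine intervalIntegral.integral_congr fun ξ hξ => ?_
    rw [uIcc_of_le (by norm_num)] at hξ
    show (1 - |ξ|) * f ξ = (1 - ξ) * f ξ
    rw [abs_of_nonneg hξ.1]

theorem fej_zero : fej 0 = 1 := by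
  unfold fej
  have h := tent_int (fun ξ => Real.cos (ξ * 0))
    (Real.continuous_cos.comp (continuous_id.mul continuous_const))
  rw [h]
  simp only [mul_zero, Real.cos_zero, mul_one]
  rw [intervalIntegral.integral_add (by simp) (by simp),
    intervalIntegral.integral_sub (by simp) (by simp)]
  simp only [integral_id, intervalIntegral.integral_const, smul_eq_mul]
  norm_num

theorem fej_eq {h : ℝ} (hh : h ≠ 0) : fej h = 2 * (1 - Real.cos h) / h ^ 2 := by
  unfold fej
  rw [tent_int (fun ξ => Real.cos (ξ * h))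
    (Real.continuous_cos.comp (continuous_id.mul continuous_const))]
  have hm : ∀ ξ : ℝ, HasDerivAt (fun y : ℝ => y * h) h ξ := fun ξ => by
    simpa using (hasDerivAt_id ξ).mul_const h
  have h1 : ∫ ξ in (-1 : ℝ)..0, (1 + ξ) * Real.cos (ξ * h)
      = ((1 + 0) * Real.sin (0 * h) / h + Real.cos (0 * h) / h ^ 2)
        - ((1 + -1) * Real.sin (-1 * h) / h + Real.cos (-1 * h) / h ^ 2) := by
    refine intervalIntegral.integral_eq_sub_of_hasDerivAt
      (f := fun ξ : ℝ => (1 + ξ) * Real.sin (ξ * h) / h + Real.cos (ξ * h) / h ^ 2)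
      (fun ξ _ => ?_) ?_
    · have h2 : HasDerivAt (fun y : ℝ => 1 + y) 1 ξ := (hasDerivAt_id ξ).const_add 1
      have h3 := (((h2.mul (hm ξ).sin).div_const h)).add ((hm ξ).cos.div_const (h ^ 2))
      refine h3.congr_deriv ?_
      field_simp
      ring
    · exact (((continuous_const.add continuous_id).mul
        (Real.continuous_cos.comp (continuous_id.mul continuous_const)))).intervalIntegrable _ _
  have h1' : ∫ ξ in (0 : ℝ)..1, (1 - ξ) * Real.cos (ξ * h)
      = ((1 - 1) * Real.sin (1 * h) / h - Real.cos (1 * h) / h ^ 2)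
        - ((1 - 0) * Real.sin (0 * h) / h - Real.cos (0 * h) / h ^ 2) := by
    refine intervalIntegral.integral_eq_sub_of_hasDerivAt
      (f := fun ξ : ℝ => (1 - ξ) * Real.sin (ξ * h) / h - Real.cos (ξ * h) / h ^ 2)
      (fun ξ _ => ?_) ?_
    · have h2 : HasDerivAt (fun y : ℝ => 1 - y) (-1) ξ := (hasDerivAt_id ξ).const_sub 1
      have h3 := (((h2.mul (hm ξ).sin).div_const h)).sub ((hm ξ).cos.div_const (h ^ 2))
      refine h3.congr_deriv ?_
      field_simp
      ring
    · exact (((continuous_const.sub continuous_id).mul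
        (Real.continuous_cos.comp (continuous_id.mul continuous_const)))).intervalIntegrable _ _
  rw [h1, h1']
  simp only [zero_mul, Real.sin_zero, Real.cos_zero, neg_mul, one_mul, Real.cos_neg]
  field_simp
  ring

theorem fej_nonneg (h : ℝ) : 0 ≤ fej h := by
  by_cases hh : h = 0
  · rw [hh, fej_zero]
    exact zero_le_one
  · rw [fej_eq hh]
    have := Real.cos_le_one h
    positivity

theorem fej_cont : Continuous fej := by
  unfold fej
  refine intervalIntegral.continuous_parametric_intervalIntegral_of_continuous' ?_ _ _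
  have : Continuous fun p : ℝ × ℝ => (1 - |p.2|) * Real.cos (p.2 * p.1) :=
    (continuous_const.sub continuous_snd.abs).mul
      (Real.continuous_cos.comp (continuous_snd.mul continuous_fst))
  exact this

theorem fej_le (h : ℝ) : fej h ≤ 8 * (1 + h ^ 2)⁻¹ := by
  have hp : 0 < 1 + h ^ 2 := by positivity
  rw [← div_eq_mul_inv, le_div_iff₀ hp]
  by_cases hh : h = 0
  · rw [hh, fej_zero]
    norm_num
  have h2 : 0 < h ^ 2 := by positivity
  rw [fej_eq hh]
  have hc := Real.neg_one_le_cos h
  have hq := Real.one_sub_sq_div_two_le_cos (x := h)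
  rw [div_mul_eq_mul_div, div_le_iff₀ h2]
  nlinarith

theorem fej_integrable : Integrable fej := by
  refine Integrable.mono' (integrable_inv_one_add_sq.const_mul 8)
    fej_cont.aestronglyMeasurable (Eventually.of_forall fun h => ?_)
  rw [Real.norm_of_nonneg (fej_nonneg h)]
  exact fej_le h

theorem fejI_pos : 0 < fejI := by
  unfold fejI
  rw [integral_pos_iff_support_of_nonneg fej_nonneg fej_integrable]
  refine (fej_cont.isOpen_support).measure_pos _ ⟨0, ?_⟩
  rw [Function.mem_support, fej_zero]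
  exact one_ne_zero

theorem fej_shift_integrable {l : ℝ} (hl : 0 < l) (x : ℝ) :
    Integrable fun t : ℝ => l * fej (l * (x - t)) := by
  have h1 : Integrable fun t : ℝ => fej (l * t) := fej_integrable.comp_mul_left' hl.ne'
  exact (h1.comp_sub_left x).const_mul l

theorem fej_shift_integral {l : ℝ} (hl : 0 < l) (x : ℝ) :
    ∫ t : ℝ, l * fej (l * (x - t)) = fejI := by
  rw [integral_const_mul, integral_sub_left_eq_self (fun t => fej (l * t)) volume x,
    Measure.integral_comp_mul_left, abs_of_pos (inv_pos.2 hl), smul_eq_mul,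
    mul_inv_cancel_left₀ hl.ne']
  rfl

theorem T2_FJ : P2_FJ := by
  refine ⟨fejI_pos, fej_nonneg, fej_cont, ?_, ?_⟩
  · intro l x a b hl hab
    rw [intervalIntegral.integral_of_le hab, ← fej_shift_integral hl x]
    exact setIntegral_le_integral (fej_shift_integrable hl x)
      (Eventually.of_forall fun t => mul_nonneg hl.le (fej_nonneg _))
  · intro κ hκ
    have h1 : Tendsto (fun K : ℝ => ∫ t in (-K)..K, fej t) atTop (𝓝 fejI) :=
      intervalIntegral_tendsto_integral fej_integrable tendsto_neg_atTop_atBot tendsto_id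
    have h2 : fejI / (1 + κ) < fejI := by
      rw [div_lt_iff₀ (by linarith)]
      nlinarith [fejI_pos]
    obtain ⟨K, hK1, hK0⟩ := ((h1.eventually (lt_mem_nhds h2)).and (eventually_gt_atTop 0)).exists
    refine ⟨K, hK0, fun l x hl => ?_⟩
    have h3 : ∫ t in (x - K / l)..(x + K / l), l * fej (l * (x - t)) = ∫ t in (-K)..K, fej t := by
      rw [intervalIntegral.integral_const_mul]
      have h4 : ∀ t : ℝ, fej (l * (x - t)) = fej (l * x - l * t) := fun t => by rw [mul_sub]
      simp_rw [h4]
      rw [intervalIntegral.integral_comp_sub_mul (fun t => fej t) hl.ne' (l * x), smul_eq_mul,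
        mul_inv_cancel_left₀ hl.ne']
      congr 1
      · field_simp
        ring
      · field_simp
        ring
    rw [h3]
    rw [div_lt_iff₀ (by linarith)] at hK1
    linarith

theorem T2_FS : P2_FS := by
  intro ι T c x l t0 b hl hb hS
  set S : ℝ → ℂ := fun ξ => ∑ i ∈ T, c i * Complex.exp (ξ * x i * Complex.I) with hSd
  set G : ℝ → ℂ := fun ξ => ∑ i ∈ T, ∑ j ∈ T, c i * c j *
    ((Real.cos (ξ * (l * (x i + x j - t0))) : ℝ) : ℂ) with hG
  have hGc : Continuous G := by
    refine continuous_finsetSum _ fun i _ => continuous_finsetSum _ fun j _ =>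
      continuous_const.mul (Complex.continuous_ofReal.comp (Real.continuous_cos.comp
        (continuous_id.mul continuous_const)))
  have hGb : ∀ ξ : ℝ, |ξ| ≤ 1 → ‖G ξ‖ ≤ b ^ 2 := by
    intro ξ hξ
    have e1 : G ξ = (Complex.exp (-(ξ * l * t0 * Complex.I)) * S (ξ * l) ^ 2
        + Complex.exp (ξ * l * t0 * Complex.I) * S (-(ξ * l)) ^ 2) / 2 := by
      have hsq : ∀ ξ : ℝ, S ξ ^ 2 = ∑ i ∈ T, ∑ j ∈ T,
          (c i * Complex.exp (ξ * x i * Complex.I))
            * (c j * Complex.exp (ξ * x j * Complex.I)) := fun ξ => by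
        rw [sq, hSd]
        exact Finset.sum_mul_sum _ _ _ _
      rw [hsq, hsq, Finset.mul_sum, Finset.mul_sum, ← Finset.sum_add_distrib, Finset.sum_div]
      refine Finset.sum_congr rfl fun i _ => ?_
      rw [Finset.mul_sum, Finset.mul_sum, ← Finset.sum_add_distrib, Finset.sum_div]
      refine Finset.sum_congr rfl fun j _ => ?_
      rw [Complex.ofReal_cos, Complex.cos]
      have e2 : Complex.exp (((ξ * (l * (x i + x j - t0)) : ℝ) : ℂ) * Complex.I)
          = Complex.exp (-(ξ * l * t0 * Complex.I))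
            * (Complex.exp (((ξ * l : ℝ) : ℂ) * x i * Complex.I)
              * Complex.exp (((ξ * l : ℝ) : ℂ) * x j * Complex.I)) := by
        rw [← Complex.exp_add, ← Complex.exp_add]
        congr 1
        push_cast
        ring
      have e3 : Complex.exp (-((ξ * (l * (x i + x j - t0)) : ℝ) : ℂ) * Complex.I)
          = Complex.exp (ξ * l * t0 * Complex.I)
            * (Complex.exp (((-(ξ * l) : ℝ) : ℂ) * x i * Complex.I)
              * Complex.exp (((-(ξ * l) : ℝ) : ℂ) * x j * Complex.I)) := by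
        rw [← Complex.exp_add, ← Complex.exp_add]
        congr 1
        push_cast
        ring
      rw [e2, e3]
      ring
    have h1 : ‖S (ξ * l)‖ ≤ b := hS _ (by
      rw [abs_mul, abs_of_pos hl]
      exact mul_le_of_le_one_left hl.le hξ)
    have h2 : ‖S (-(ξ * l))‖ ≤ b := hS _ (by
      rw [abs_neg, abs_mul, abs_of_pos hl]
      exact mul_le_of_le_one_left hl.le hξ)
    have h3 : ‖Complex.exp (-(ξ * l * t0 * Complex.I))‖ = 1 := by
      rw [show -((ξ : ℂ) * l * t0 * Complex.I) = ((-(ξ * l * t0) : ℝ) : ℂ) * Complex.I by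
        push_cast; ring]
      exact Complex.norm_exp_ofReal_mul_I _
    have h4 : ‖Complex.exp (ξ * l * t0 * Complex.I)‖ = 1 := by
      rw [show ((ξ : ℂ) * l * t0 * Complex.I) = ((ξ * l * t0 : ℝ) : ℂ) * Complex.I by
        push_cast; ring]
      exact Complex.norm_exp_ofReal_mul_I _
    rw [e1, norm_div]
    have h5 : ‖(2 : ℂ)‖ = 2 := by simp
    rw [h5, div_le_iff₀ two_pos]
    refine (norm_add_le _ _).trans ?_
    rw [norm_mul, norm_mul, h3, h4, one_mul, one_mul, norm_pow, norm_pow]
    have h6 := pow_le_pow_left₀ (norm_nonneg _) h1 2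
    have h7 := pow_le_pow_left₀ (norm_nonneg _) h2 2
    linarith
  have e0 : ∑ i ∈ T, ∑ j ∈ T, c i * c j * ((fej (l * (x i + x j - t0)) : ℝ) : ℂ)
      = ∫ ξ in (-1 : ℝ)..1, ((1 - |ξ| : ℝ) : ℂ) * G ξ := by
    have hterm : ∀ i j : ι, Continuous fun ξ : ℝ => c i * c j *
        (((1 - |ξ|) * Real.cos (ξ * (l * (x i + x j - t0))) : ℝ) : ℂ) := fun i j =>
      continuous_const.mul (Complex.continuous_ofReal.comp
        ((continuous_const.sub continuous_abs).mul (Real.continuous_cos.comp
          (continuous_id.mul continuous_const))))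
    have e1 : ∀ ξ : ℝ, ((1 - |ξ| : ℝ) : ℂ) * G ξ = ∑ i ∈ T, ∑ j ∈ T, c i * c j *
        (((1 - |ξ|) * Real.cos (ξ * (l * (x i + x j - t0))) : ℝ) : ℂ) := by
      intro ξ
      simp only [hG, Finset.mul_sum]
      refine Finset.sum_congr rfl fun i _ => Finset.sum_congr rfl fun j _ => ?_
      push_cast
      ring
    simp_rw [e1]
    rw [intervalIntegral.integral_finsetSum (fun i _ => (continuous_finsetSum _ fun j _ =>
      hterm i j).intervalIntegrable _ _)]
    refine Finset.sum_congr rfl fun i _ => ?_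
    rw [intervalIntegral.integral_finsetSum (fun j _ => (hterm i j).intervalIntegrable _ _)]
    refine Finset.sum_congr rfl fun j _ => ?_
    rw [intervalIntegral.integral_const_mul, intervalIntegral.integral_ofReal]
    rfl
  rw [e0]
  have hgc : Continuous fun ξ : ℝ => (1 - |ξ|) * b ^ 2 :=
    (continuous_const.sub continuous_abs).mul continuous_const
  have h1 : ‖∫ ξ in (-1 : ℝ)..1, ((1 - |ξ| : ℝ) : ℂ) * G ξ‖
      ≤ ∫ ξ in (-1 : ℝ)..1, (1 - |ξ|) * b ^ 2 := by
    refine intervalIntegral.norm_integral_le_of_norm_le (by norm_num)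
      (Eventually.of_forall fun ξ hξ => ?_) (hgc.intervalIntegrable _ _)
    have h2 : |ξ| ≤ 1 := abs_le.2 ⟨hξ.1.le, hξ.2⟩
    rw [norm_mul, Complex.norm_real, Real.norm_of_nonneg (by linarith)]
    exact mul_le_mul_of_nonneg_left (hGb ξ h2) (by linarith)
  refine h1.trans (le_of_eq ?_)
  rw [intervalIntegral.integral_mul_const]
  have h3 : ∫ ξ in (-1 : ℝ)..1, (1 - |ξ|) = 1 := by
    have := fej_zero
    unfold fej at this
    simpa using this
  rw [h3, one_mul]

theorem T2_OMC : P2_OMC := by
  intro X η v hX hη hη1 hv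
  have hX0 : (0 : ℝ) < X := by
    have : (1 : ℝ) ≤ X := by exact_mod_cast hX
    linarith
  have e : (fun t : ℝ => om X η v (Real.exp t)) = fun t : ℝ =>
      ∫ x in (X : ℝ)..((1 + η) * X),
        phi (2 * Real.arsinh (v * √x / (2 * √(Real.exp t)))) * (1 / 2)
          / √(4 * Real.exp t + max x 0 * v ^ 2) := by
    funext t
    unfold om
    refine intervalIntegral.integral_congr fun x hx => ?_
    rw [uIcc_of_le (by nlinarith)] at hx
    have hx0 : 0 ≤ x := hX0.le.trans hx.1
    show _ = phi (2 * Real.arsinh (v * √x / (2 * √(Real.exp t)))) * (1 / 2)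
          / √(4 * Real.exp t + max x 0 * v ^ 2)
    rw [max_eq_left hx0]
  rw [e]
  refine intervalIntegral.continuous_parametric_intervalIntegral_of_continuous' ?_ _ _
  have hphi : Continuous phi := by
    unfold phi
    exact continuous_const.max (continuous_const.sub continuous_abs)
  have hden : ∀ p : ℝ × ℝ, √(4 * Real.exp p.1 + max p.2 0 * v ^ 2) ≠ 0 := by
    intro p
    have h1 : 0 < 4 * Real.exp p.1 + max p.2 0 * v ^ 2 := by
      have := Real.exp_pos p.1
      have h2 : 0 ≤ max p.2 0 * v ^ 2 := mul_nonneg (le_max_right _ _) (sq_nonneg _)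
      linarith
    exact (Real.sqrt_pos.2 h1).ne'
  have hden2 : ∀ p : ℝ × ℝ, 2 * √(Real.exp p.1) ≠ 0 := by
    intro p
    have := Real.sqrt_pos.2 (Real.exp_pos p.1)
    positivity
  have hexp : Continuous fun p : ℝ × ℝ => Real.exp p.1 := Real.continuous_exp.comp continuous_fst
  have : Continuous fun p : ℝ × ℝ => phi (2 * Real.arsinh (v * √p.2 / (2 * √(Real.exp p.1))))
      * (1 / 2) / √(4 * Real.exp p.1 + max p.2 0 * v ^ 2) := by
    refine Continuous.div ?_ ?_ hden
    · refine (hphi.comp (continuous_const.mul (Real.continuous_arsinh.comp ?_))).mul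
        continuous_const
      exact Continuous.div (continuous_const.mul (Real.continuous_sqrt.comp continuous_snd))
        (continuous_const.mul (Real.continuous_sqrt.comp hexp)) hden2
    · exact Real.continuous_sqrt.comp ((continuous_const.mul hexp).add
        ((continuous_snd.max continuous_const).mul continuous_const))
  exact this

end Pool.Agent.Run7.h811.CG
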