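import Pool.Agent.Run7.h811.CG.FJ
import Pool.Agent.H38R2.CG.TB2

/-!
P2_OM: the majorant of om by the Fejer kernel.
-/

set_option autoImplicit false

open MeasureTheory Set Filter Topology

namespace Pool.Agent.Run7.h811.CG

open Pool.Agent.H38R2.CG Pool.Agent.H38R2.CG2

theorem T2_OM (hFJ : P2_FJ) (hTB : P_TB2) (hOMC : P2_OMC) : P2_OM := by
  intro κ η' hκ hη' hη'1
  obtain ⟨hI, hnn, hcont, -, hK⟩ := hFJ
  obtain ⟨K, hK0, hK⟩ := hK κ hκ
  refine ⟨K / η', div_pos hK0 hη', ?_⟩
  set l : ℝ := K / η' with hl'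
  have hl : 0 < l := div_pos hK0 hη'
  have hKl : K / l = η' := by
    rw [hl']
    field_simp
  intro X η v x T0 T1 hX hη hη1 hv hT0 hT1
  set v' : ℝ := v * Real.exp (-(η' / 2)) with hv'
  have hv'0 : 0 ≤ v' := mul_nonneg hv (Real.exp_pos _).le
  have hoc := hOMC X η v' hX hη hη1 hv'0
  have hom0 : ∀ (t w : ℝ), 0 ≤ om X η w (Real.exp t) := fun t w =>
    (hTB X η hX hη hη1 _ (Real.exp_pos t)).2.1 w
  have hker : Continuous fun t : ℝ => l / fejI * fej (l * (x - t)) :=
    continuous_const.mul (hcont.comp (continuous_const.mul (continuous_const.sub continuous_id)))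
  have hkn : ∀ t, 0 ≤ l / fejI * fej (l * (x - t)) := fun t =>
    mul_nonneg (div_nonneg hl.le hI.le) (hnn _)
  have hint : Continuous fun t : ℝ => om X η v' (Real.exp t) * (l / fejI * fej (l * (x - t))) :=
    hoc.mul hker
  -- the pointwise bound
  have hpt : ∀ t ∈ Icc (x - η') (x + η'),
      om X η v (Real.exp x) * (l / fejI * fej (l * (x - t)))
        ≤ Real.exp (η' / 2) * (om X η v' (Real.exp t) * (l / fejI * fej (l * (x - t)))) := by
    intro t ht
    rw [← mul_assoc (Real.exp (η' / 2))]
    refine mul_le_mul_of_nonneg_right ?_ (hkn t)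
    refine (hTB X η hX hη hη1 _ (Real.exp_pos t)).2.2.2.2 v hv (Real.exp x) (η' / 2)
      (Real.exp_pos x) (by positivity) ?_
    rw [Real.log_exp, Real.log_exp, mul_div_cancel₀ _ two_ne_zero]
    exact abs_le.2 ⟨by linarith [ht.2], by linarith [ht.1]⟩
  have h1 : ∫ t in (x - η')..(x + η'), om X η v (Real.exp x) * (l / fejI * fej (l * (x - t)))
      ≤ ∫ t in (x - η')..(x + η'),
        Real.exp (η' / 2) * (om X η v' (Real.exp t) * (l / fejI * fej (l * (x - t)))) :=
    intervalIntegral.integral_mono_on (by linarith)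
      ((continuous_const.mul hker).intervalIntegrable _ _)
      ((continuous_const.mul hint).intervalIntegrable _ _) hpt
  have h2 : ∫ t in (x - η')..(x + η'), om X η v (Real.exp x) * (l / fejI * fej (l * (x - t)))
      = om X η v (Real.exp x) * ((∫ t in (x - K / l)..(x + K / l), l * fej (l * (x - t)))
        / fejI) := by
    rw [hKl, intervalIntegral.integral_const_mul]
    congr 1
    have : ∀ t : ℝ, l / fejI * fej (l * (x - t)) = (l * fej (l * (x - t))) / fejI := fun t => by
      ring
    simp_rw [this]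
    rw [intervalIntegral.integral_div]
  have h3 : ∫ t in (x - η')..(x + η'),
        Real.exp (η' / 2) * (om X η v' (Real.exp t) * (l / fejI * fej (l * (x - t))))
      ≤ Real.exp (η' / 2) *
        ∫ t in T0..T1, om X η v' (Real.exp t) * (l / fejI * fej (l * (x - t))) := by
    rw [intervalIntegral.integral_const_mul]
    refine mul_le_mul_of_nonneg_left ?_ (Real.exp_pos _).le
    refine intervalIntegral.integral_mono_interval (by linarith) (by linarith) hT1
      (Eventually.of_forall fun t => mul_nonneg (hom0 t v') (hkn t))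
      (hint.intervalIntegrable _ _)
  have h4 := hK l x hl
  set J : ℝ := ∫ t in (x - K / l)..(x + K / l), l * fej (l * (x - t)) with hJ
  have h5 : om X η v (Real.exp x) ≤ (1 + κ) * (om X η v (Real.exp x) * (J / fejI)) := by
    have h6 : 1 ≤ (1 + κ) * (J / fejI) := by
      rw [← mul_div_assoc, le_div_iff₀ hI, one_mul]
      exact h4
    calc om X η v (Real.exp x) = om X η v (Real.exp x) * 1 := (mul_one _).symm
      _ ≤ om X η v (Real.exp x) * ((1 + κ) * (J / fejI)) :=
          mul_le_mul_of_nonneg_left h6 (hom0 x v)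
      _ = _ := by ring
  refine h5.trans ?_
  rw [mul_assoc]
  refine mul_le_mul_of_nonneg_left ?_ (by linarith)
  rw [← h2]
  exact h1.trans h3

theorem T2_OM_all : P2_OM := T2_OM T2_FJ T_TB2 T2_OMC

end Pool.Agent.Run7.h811.CG
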