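import Pool.Agent.H38R2.CG2.Stubs

/-!
P2_COMB, P2_PAIR: binomial sums and pairs of sets.
-/

set_option autoImplicit false

open Finset
open scoped Classical

namespace Pool.Agent.Run7.h811.CG

open Pool.Agent.H38R2.CG Pool.Agent.H38R2.CG2

theorem choose_ratio {n k : ℕ} (hn : 1 ≤ n) (hkn : 2 * k ≤ n) (i : ℕ) (hi : i ≤ k) :
    (n.choose (k - i) : ℝ) ≤ (2 * k / n) ^ i * (n.choose k : ℝ) := by
  have hn0 : (0 : ℝ) < n := by exact_mod_cast hn
  induction i with
  | zero => simp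
  | succ i ih =>
    have ih' := ih (by omega)
    obtain ⟨m, hm⟩ : ∃ m, k - i = m + 1 := ⟨k - i - 1, by omega⟩
    have hm' : k - (i + 1) = m := by omega
    rw [hm] at ih'
    rw [hm']
    have h1 : (n.choose (m + 1) : ℝ) * (m + 1) = (n.choose m : ℝ) * (n - m) := by
      have h := Nat.choose_succ_right_eq n m
      have hc : (((n - m : ℕ)) : ℝ) = (n : ℝ) - m := by rw [Nat.cast_sub (by omega)]
      rw [← hc]
      exact_mod_cast h
    have hmk : (m : ℝ) + 1 ≤ k := by
      have : m + 1 ≤ k := by omega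
      exact_mod_cast this
    have hkn' : 2 * (k : ℝ) ≤ n := by exact_mod_cast hkn
    have h2 : (n.choose m : ℝ) * (n / 2) ≤ (n.choose (m + 1) : ℝ) * k := by
      have h3 : (n.choose m : ℝ) * (n / 2) ≤ (n.choose m : ℝ) * (n - m) :=
        mul_le_mul_of_nonneg_left (by linarith) (Nat.cast_nonneg _)
      have h4 : (n.choose (m + 1) : ℝ) * (m + 1) ≤ (n.choose (m + 1) : ℝ) * k :=
        mul_le_mul_of_nonneg_left hmk (Nat.cast_nonneg _)
      linarith
    have h5 : (n.choose m : ℝ) ≤ 2 * k / n * (n.choose (m + 1) : ℝ) := by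
      rw [div_mul_eq_mul_div, le_div_iff₀ hn0]
      linarith
    refine h5.trans ?_
    rw [pow_succ']
    rw [mul_assoc]
    exact mul_le_mul_of_nonneg_left ih' (by positivity)

theorem T2_COMB : P2_COMB := by
  intro n k i0 B hB hn hkn
  have hn0 : (0 : ℝ) < n := by exact_mod_cast hn
  set x : ℝ := 4 * B * k ^ 2 / n with hx
  have hx0 : 0 ≤ x := by positivity
  have hterm : ∀ i ∈ Finset.Icc (i0 + 1) k,
      (n.choose i : ℝ) * B ^ i * (n.choose (k - i) : ℝ) ^ 2
        ≤ x ^ (i0 + 1) * (x ^ (i - (i0 + 1)) / (i - (i0 + 1)).factorial)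
          * (n.choose k : ℝ) ^ 2 := by
    intro i hi
    obtain ⟨hi1, hi2⟩ := Finset.mem_Icc.1 hi
    have h1 := choose_ratio hn hkn i hi2
    have h2 : (n.choose i : ℝ) ≤ (n : ℝ) ^ i / i.factorial := Nat.choose_le_pow_div i n
    have h3 : (n.choose (k - i) : ℝ) ^ 2 ≤ ((2 * k / n) ^ i * (n.choose k : ℝ)) ^ 2 :=
      pow_le_pow_left₀ (Nat.cast_nonneg _) h1 2
    have hif : (0 : ℝ) < i.factorial := by exact_mod_cast i.factorial_pos
    calc (n.choose i : ℝ) * B ^ i * (n.choose (k - i) : ℝ) ^ 2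
        ≤ ((n : ℝ) ^ i / i.factorial) * B ^ i * ((2 * k / n) ^ i * (n.choose k : ℝ)) ^ 2 := by
          gcongr
      _ = x ^ i / i.factorial * (n.choose k : ℝ) ^ 2 := by
          have e : x ^ i = (n : ℝ) ^ i * B ^ i * ((2 * k / n) ^ i) ^ 2 := by
            rw [← mul_pow, ← pow_mul, mul_comm i 2, pow_mul, ← mul_pow, hx]
            congr 1
            field_simp
            ring
          rw [e]
          ring
      _ ≤ x ^ (i0 + 1) * (x ^ (i - (i0 + 1)) / (i - (i0 + 1)).factorial)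
          * (n.choose k : ℝ) ^ 2 := by
          refine mul_le_mul_of_nonneg_right ?_ (by positivity)
          rw [← mul_div_assoc, ← pow_add, show i0 + 1 + (i - (i0 + 1)) = i by omega]
          refine div_le_div_of_nonneg_left (by positivity) ?_ ?_
          · exact_mod_cast (i - (i0 + 1)).factorial_pos
          · exact_mod_cast Nat.factorial_le (by omega)
  refine (Finset.sum_le_sum hterm).trans ?_
  rw [← Finset.sum_mul, ← Finset.mul_sum]
  refine mul_le_mul_of_nonneg_right (mul_le_mul_of_nonneg_left ?_ (by positivity)) (by positivity)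
  have h1 : ∑ i ∈ Finset.Icc (i0 + 1) k, x ^ (i - (i0 + 1)) / ((i - (i0 + 1)).factorial : ℝ)
      = ∑ j ∈ Finset.range (k + 1 - (i0 + 1)), x ^ j / (j.factorial : ℝ) := by
    have e : Finset.Icc (i0 + 1) k = Finset.Ico (i0 + 1) (k + 1) := by
      ext i
      simp only [Finset.mem_Icc, Finset.mem_Ico]
      omega
    rw [e, Finset.sum_Ico_eq_sum_range]
    refine Finset.sum_congr rfl fun j _ => ?_
    rw [Nat.add_sub_cancel_left]
  rw [h1]
  exact Real.sum_le_exp_of_nonneg hx0 _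

theorem T2_PAIR : P2_PAIR := by
  intro P k A hA
  have e1 : ∑ s ∈ P.powersetCard k, ∑ t ∈ P.powersetCard k, A (s ∩ t) (s \ t) (t \ s)
      = ∑ y ∈ P.powersetCard k ×ˢ P.powersetCard k, A (y.1 ∩ y.2) (y.1 \ y.2) (y.2 \ y.1) :=
    (Finset.sum_product' _ _ _).symm
  set T : Finset (Σ _ : Finset ℕ, Finset ℕ × Finset ℕ) :=
    (P.powerset.filter (fun c => c.card ≤ k)).sigma
      (fun c => P.powersetCard (k - c.card) ×ˢ P.powersetCard (k - c.card)) with hT
  have e2 : ∑ c ∈ P.powerset.filter (fun c => c.card ≤ k), ∑ s ∈ P.powersetCard (k - c.card),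
      ∑ t ∈ P.powersetCard (k - c.card), A c s t = ∑ y ∈ T, A y.1 y.2.1 y.2.2 := by
    rw [hT, ← Finset.sum_sigma' _ _ (fun c (y : Finset ℕ × Finset ℕ) => A c y.1 y.2)]
    refine Finset.sum_congr rfl fun c _ => ?_
    exact (Finset.sum_product' _ _ _).symm
  rw [e1, e2]
  set g : Finset ℕ × Finset ℕ → (Σ _ : Finset ℕ, Finset ℕ × Finset ℕ) :=
    fun y => ⟨y.1 ∩ y.2, (y.1 \ y.2, y.2 \ y.1)⟩ with hg
  have hinj : Set.InjOn g (P.powersetCard k ×ˢ P.powersetCard k : Finset (Finset ℕ × Finset ℕ)) := by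
    rintro ⟨s, t⟩ _ ⟨s', t'⟩ _ h
    simp only [hg, Sigma.mk.injEq, heq_eq_eq, Prod.mk.injEq] at h
    obtain ⟨h1, h2, h3⟩ := h
    have a1 : s = s' := by
      rw [← Finset.sdiff_union_inter s t, ← Finset.sdiff_union_inter s' t', h1, h2]
    have a2 : t = t' := by
      rw [← Finset.sdiff_union_inter t s, ← Finset.sdiff_union_inter t' s', h3,
        Finset.inter_comm t s, Finset.inter_comm t' s', h1]
    rw [a1, a2]
  have e3 : ∑ y ∈ P.powersetCard k ×ˢ P.powersetCard k, A (y.1 ∩ y.2) (y.1 \ y.2) (y.2 \ y.1)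
      = ∑ z ∈ (P.powersetCard k ×ˢ P.powersetCard k).image g, A z.1 z.2.1 z.2.2 :=
    (Finset.sum_image (f := fun z : (Σ _ : Finset ℕ, Finset ℕ × Finset ℕ) => A z.1 z.2.1 z.2.2)
      hinj).symm
  rw [e3]
  refine Finset.sum_le_sum_of_subset_of_nonneg ?_ ?_
  · intro z hz
    obtain ⟨⟨s, t⟩, hy, rfl⟩ := Finset.mem_image.1 hz
    obtain ⟨hs, ht⟩ := Finset.mem_product.1 hy
    obtain ⟨hs1, hs2⟩ := Finset.mem_powersetCard.1 hs
    obtain ⟨ht1, ht2⟩ := Finset.mem_powersetCard.1 ht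
    have c1 : (s ∩ t).card ≤ k := hs2 ▸ Finset.card_le_card Finset.inter_subset_left
    have c2 : (s \ t).card = k - (s ∩ t).card := by
      have := Finset.card_sdiff_add_card_inter s t
      simp only at hs2 this
      omega
    have c3 : (t \ s).card = k - (s ∩ t).card := by
      have := Finset.card_sdiff_add_card_inter t s
      rw [Finset.inter_comm] at this
      simp only at ht2 this
      omega
    refine Finset.mem_sigma.2 ⟨Finset.mem_filter.2 ⟨Finset.mem_powerset.2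
      (Finset.inter_subset_left.trans hs1), c1⟩, Finset.mem_product.2
      ⟨Finset.mem_powersetCard.2 ⟨Finset.sdiff_subset.trans hs1, c2⟩,
        Finset.mem_powersetCard.2 ⟨Finset.sdiff_subset.trans ht1, c3⟩⟩⟩
  · rintro ⟨c, s, t⟩ hz _
    obtain ⟨h1, h2⟩ := Finset.mem_sigma.1 hz
    obtain ⟨h3, h4⟩ := Finset.mem_product.1 h2
    exact hA c s t (Finset.mem_powerset.1 (Finset.mem_filter.1 h1).1)
      (Finset.mem_powersetCard.1 h3).1 (Finset.mem_powersetCard.1 h4).1

end Pool.Agent.Run7.h811.CG
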