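import Pool.Agent.H38R2.CG2.Stubs

/-!
P2_SZ: size of the products. Common facts on the parameters.
-/

set_option autoImplicit false

open Finset Filter
open scoped Classical

namespace Pool.Agent.Run7.h811.CG

open Pool.Agent.H38R2.CG Pool.Agent.H38R2.CG2

theorem cc_pos {a : ℝ} (ha : 2 < a) : 0 < cc a := by
  unfold cc
  exact div_pos (by linarith) (by linarith)

theorem cc_lt {a : ℝ} (ha : 2 < a) : cc a < 1 / 32 := by
  unfold cc
  rw [div_lt_div_iff₀ (by linarith) (by norm_num)]
  linarith

theorem th_bds {a : ℝ} (ha : 2 < a) : 3 / 4 < th a ∧ th a < 1 := by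
  unfold th
  have := cc_pos ha
  have := cc_lt ha
  constructor <;> linarith

theorem tendsto_logN : Tendsto (fun X : ℕ => Real.log (X : ℝ)) atTop atTop :=
  Real.tendsto_log_atTop.comp tendsto_natCast_atTop_atTop

/-- The parameters for large `X`. -/
theorem par_ev {a : ℝ} (ha : 2 < a) (M ε : ℝ) (hε : 0 < ε) : ∀ᶠ X : ℕ in atTop,
    1 < (X : ℝ) ∧ M ≤ Real.log X ∧ 1 ≤ Real.log X ∧ M ≤ Real.log (yA a X) ∧
    1 ≤ Real.log (yA a X) ∧ 0 < (yA a X : ℝ) ∧ M ≤ yA a X ∧
    Real.log (yA a X) ≤ ε * √(Real.log X) ∧
    (Real.log X) ^ a / 5 ≤ yA a X ∧ (yA a X : ℝ) ≤ (Real.log X) ^ a / 4 := by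
  have ha0 : 0 < a := by linarith
  have hpow : Tendsto (fun X : ℕ => (Real.log X) ^ a / 4) atTop atTop :=
    ((tendsto_rpow_atTop ha0).comp tendsto_logN).atTop_div_const (by norm_num)
  have hy : Tendsto (fun X : ℕ => (yA a X : ℝ)) atTop atTop :=
    tendsto_natCast_atTop_atTop.comp (tendsto_nat_floor_atTop.comp hpow)
  have h1 : ∀ᶠ x : ℝ in atTop, a * Real.log x ≤ ε * √x := by
    have h := (isLittleO_log_rpow_atTop (show (0 : ℝ) < 1 / 2 by norm_num)).bound
      (show (0 : ℝ) < ε / a by positivity)
    filter_upwards [h, eventually_ge_atTop 1] with x hx hx1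
    rw [Real.norm_of_nonneg (Real.log_nonneg hx1),
      Real.norm_of_nonneg (Real.rpow_nonneg (by linarith) _), ← Real.sqrt_eq_rpow] at hx
    calc a * Real.log x ≤ a * (ε / a * √x) := mul_le_mul_of_nonneg_left hx ha0.le
      _ = ε * √x := by
          field_simp
  filter_upwards [tendsto_logN.eventually_ge_atTop (max M 1),
    (Real.tendsto_log_atTop.comp hy).eventually_ge_atTop (max M 1),
    hy.eventually_ge_atTop (max M 1), tendsto_logN.eventually h1,
    hpow.eventually_ge_atTop 5] with X a1 a2 a3 a4 a5
  have hL1 : 1 ≤ Real.log X := (le_max_right _ _).trans a1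
  have hX1 : (1 : ℝ) < X := by
    have hX0 : (0 : ℝ) ≤ X := Nat.cast_nonneg X
    have : 0 < Real.log X := by linarith
    exact (Real.log_pos_iff hX0).1 this
  have hy0 : 0 < (yA a X : ℝ) := by
    have := (le_max_right M 1).trans a3
    linarith
  have hyu : (yA a X : ℝ) ≤ (Real.log X) ^ a / 4 :=
    Nat.floor_le (by have : 0 ≤ (Real.log X) ^ a := Real.rpow_nonneg (by linarith) _
                     positivity)
  refine ⟨hX1, (le_max_left _ _).trans a1, hL1, (le_max_left _ _).trans a2,
    (le_max_right _ _).trans a2, hy0, (le_max_left _ _).trans a3, ?_, ?_, hyu⟩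
  · refine le_trans ?_ a4
    have h2 : (yA a X : ℝ) ≤ (Real.log X) ^ a := by
      have : 0 ≤ (Real.log X) ^ a := Real.rpow_nonneg (by linarith) _
      linarith
    calc Real.log (yA a X) ≤ Real.log ((Real.log X) ^ a) := Real.log_le_log hy0 h2
      _ = a * Real.log (Real.log X) := Real.log_rpow (by linarith) _
  · have h3 : (Real.log X) ^ a / 4 - 1 < (yA a X : ℝ) := Nat.sub_one_lt_floor _
    linarith

theorem kA_bds {a : ℝ} (ha : 2 < a) {X : ℕ} (hL : 0 ≤ Real.log X)
    (hl : 0 < Real.log (yA a X)) :
    th a * Real.log X / Real.log (yA a X) ≤ kA a X ∧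
      (kA a X : ℝ) ≤ th a * Real.log X / Real.log (yA a X) + 1 := by
  have hth := (th_bds ha).1
  unfold kA
  push_cast
  constructor
  · exact (Nat.lt_floor_add_one _).le
  · have : (⌊th a * Real.log X / Real.log (yA a X)⌋₊ : ℝ)
        ≤ th a * Real.log X / Real.log (yA a X) :=
      Nat.floor_le (div_nonneg (mul_nonneg (by linarith) hL) hl.le)
    linarith

theorem T2_SZ : P2_SZ := by
  intro a ha
  have hc := cc_pos ha
  obtain ⟨hth1, hth2⟩ := th_bds ha
  obtain ⟨X0, hX0⟩ := Filter.eventually_atTop.mp
    (par_ev ha (max (2 * Real.log 2 / cc a) 4) (cc a / 4) (by positivity))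
  refine ⟨X0, fun X hX c s hcs hss hcard => ?_⟩
  obtain ⟨hX1, hL4, hL1, hlM, hl1, hy0, -, hle, -, -⟩ := hX0 X hX
  obtain ⟨hk1, hk2⟩ := kA_bds ha (X := X) (by linarith) (by linarith)
  set L := Real.log (X : ℝ) with hL
  set l := Real.log (yA a X : ℝ) with hl
  have hX0' : (0 : ℝ) < X := by linarith
  have hl0 : 0 < l := by linarith
  have hpr : ∀ u : Finset ℕ, u ⊆ PA a X → ∀ p ∈ u, (yA a X : ℝ) ≤ p ∧ (p : ℝ) ≤ 2 * yA a X := by
    intro u hu p hp
    have := hu hp
    unfold PA PP at this
    rw [Finset.mem_filter, Finset.mem_Ioc] at this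
    constructor
    · exact_mod_cast this.1.1.le
    · exact_mod_cast this.1.2
  have hprod : ∀ u : Finset ℕ, ((prodS u : ℕ) : ℝ) = ∏ p ∈ u, (p : ℝ) := by
    intro u
    unfold prodS
    push_cast
    rfl
  have hlow : ∀ u : Finset ℕ, u ⊆ PA a X → (yA a X : ℝ) ^ u.card ≤ prodS u := by
    intro u hu
    rw [hprod, ← Finset.prod_const]
    exact Finset.prod_le_prod (fun _ _ => hy0.le) (fun p hp => (hpr u hu p hp).1)
  have hupp : ∀ u : Finset ℕ, u ⊆ PA a X → (prodS u : ℝ) ≤ (2 * yA a X : ℝ) ^ u.card := by
    intro u hu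
    rw [hprod, ← Finset.prod_const]
    exact Finset.prod_le_prod (fun p hp => hy0.le.trans (hpr u hu p hp).1)
      (fun p hp => (hpr u hu p hp).2)
  constructor
  · calc (X : ℝ) ^ (th a) = Real.exp (th a * L) := by
          rw [Real.rpow_def_of_pos hX0']
          congr 1
          ring
      _ ≤ Real.exp (kA a X * l) := by
          apply Real.exp_le_exp.mpr
          have : th a * L = th a * L / l * l := by field_simp
          rw [this]
          exact mul_le_mul_of_nonneg_right hk1 hl0.le
      _ = (yA a X : ℝ) ^ (kA a X) := by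
          rw [← Real.rpow_natCast, Real.rpow_def_of_pos hy0]
          congr 1
          ring
      _ = (yA a X : ℝ) ^ c.card * (yA a X : ℝ) ^ s.card := by rw [← pow_add, hcard]
      _ ≤ (prodS c : ℝ) * prodS s :=
          mul_le_mul (hlow c hcs) (hlow s hss) (by positivity) (Nat.cast_nonneg _)
  · calc (prodS c : ℝ) * prodS s ≤ (2 * yA a X : ℝ) ^ c.card * (2 * yA a X : ℝ) ^ s.card :=
          mul_le_mul (hupp c hcs) (hupp s hss) (Nat.cast_nonneg _) (by positivity)
      _ = (2 * yA a X : ℝ) ^ (kA a X) := by rw [← pow_add, hcard]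
      _ = Real.exp (kA a X * (Real.log 2 + l)) := by
          rw [← Real.rpow_natCast, Real.rpow_def_of_pos (by positivity),
            Real.log_mul (by norm_num) hy0.ne']
          congr 1
          ring
      _ ≤ Real.exp ((th a * L / l + 1) * (Real.log 2 + l)) := by
          apply Real.exp_le_exp.mpr
          refine mul_le_mul_of_nonneg_right hk2 ?_
          have := Real.log_pos (show (1:ℝ) < 2 by norm_num)
          linarith
      _ ≤ Real.exp ((th a + cc a) * L) := by
          apply Real.exp_le_exp.mpr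
          have e : (th a * L / l + 1) * (Real.log 2 + l) =
              th a * L + (l + Real.log 2) + th a * L * (Real.log 2 / l) := by
            field_simp
            ring
          rw [e]
          have h2 : 0 ≤ Real.log 2 := (Real.log_pos (by norm_num)).le
          have h2' : Real.log 2 ≤ 1 := by
            have := Real.log_two_lt_d9
            linarith
          have h5 : Real.log 2 / l ≤ cc a / 2 := by
            have h6 : 2 * Real.log 2 / cc a ≤ l := (le_max_left _ _).trans hlM
            rw [div_le_iff₀ hc] at h6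
            rw [div_le_div_iff₀ hl0 two_pos]
            linarith
          have h6 : th a * L * (Real.log 2 / l) ≤ 1 * L * (cc a / 2) := by
            have : (0 : ℝ) ≤ Real.log 2 / l := div_nonneg h2 hl0.le
            have h7 : th a * L ≤ 1 * L := mul_le_mul_of_nonneg_right hth2.le (by linarith)
            exact mul_le_mul h7 h5 this (by linarith)
          have h7 : √L ≤ L := by
            rw [Real.sqrt_le_left (by linarith)]
            nlinarith
          have h8 : l + Real.log 2 ≤ cc a / 2 * L := by
            have h9 : l ≤ cc a / 4 * L :=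
              hle.trans (mul_le_mul_of_nonneg_left h7 (by positivity))
            have h10 : Real.log 2 ≤ cc a / 4 * L := by
              have h11 : 2 * Real.log 2 / cc a ≤ l := (le_max_left _ _).trans hlM
              rw [div_le_iff₀ hc] at h11
              have h12 : 4 ≤ L := (le_max_right _ _).trans hL4
              have h13 : l ≤ cc a / 4 * L := h9
              nlinarith [cc_lt ha]
            linarith
          nlinarith
      _ = (X : ℝ) ^ (th a + cc a) := by
          rw [Real.rpow_def_of_pos hX0']
          congr 1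
          ring

end Pool.Agent.Run7.h811.CG
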