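import Pool.Agent.Run7.h811.CG.NUM1
import Pool.Agent.H38R2.CG.NB

/-!
P2_NB: size of the parameters.
-/

set_option autoImplicit false

open Finset Filter
open scoped Classical

namespace Pool.Agent.Run7.h811.CG

open Pool.Agent.H38R2.CG Pool.Agent.H38R2.CG2

/-- the elementary inequality -/
theorem choose_exp {n k : ℕ} {D : ℝ} (hk : 1 ≤ k) (hkn : 4 * k ≤ n)
    (hD : D ≤ Real.log (3 * n / (4 * k))) : Real.exp (k * D) ≤ (n.choose k : ℝ) := by
  have hk0 : (0 : ℝ) < k := by exact_mod_cast hk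
  have hkn' : 4 * (k : ℝ) ≤ n := by exact_mod_cast hkn
  have hn0 : (0 : ℝ) < n := by linarith
  have hb : 0 < 3 * (n : ℝ) / (4 * k) := by positivity
  have h1 : Real.exp (k * D) ≤ (3 * (n : ℝ) / (4 * k)) ^ k := by
    rw [← Real.exp_log hb, ← Real.exp_nat_mul]
    exact Real.exp_le_exp.2 (mul_le_mul_of_nonneg_left hD hk0.le)
  refine h1.trans ?_
  have hch := Nat.pow_le_choose (α := ℝ) k n
  have hfac : ((k.factorial : ℕ) : ℝ) ≤ (k : ℝ) ^ k := by
    exact_mod_cast Nat.factorial_le_pow k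
  have hkf : (0 : ℝ) < k.factorial := by exact_mod_cast k.factorial_pos
  have hcast : ((n + 1 - k : ℕ) : ℝ) = (n : ℝ) + 1 - k := by
    rw [Nat.cast_sub (by omega)]
    push_cast
    ring
  calc (3 * (n : ℝ) / (4 * k)) ^ k ≤ (((n : ℝ) + 1 - k) / k) ^ k := by
        refine pow_le_pow_left₀ hb.le ?_ k
        rw [div_le_div_iff₀ (by positivity) hk0]
        have h2 : 0 ≤ (n - 4 * (k : ℝ)) * k := mul_nonneg (by linarith) hk0.le
        linarith
    _ = ((n : ℝ) + 1 - k) ^ k / (k : ℝ) ^ k := div_pow _ _ _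
    _ ≤ ((n : ℝ) + 1 - k) ^ k / ((k.factorial : ℕ) : ℝ) := by
        refine div_le_div_of_nonneg_left ?_ hkf hfac
        have : 0 ≤ (n : ℝ) + 1 - k := by linarith
        positivity
    _ ≤ (n.choose k : ℝ) := by
        rw [← hcast]
        exact_mod_cast hch

theorem slack {a : ℝ} (ha : 2 < a) :
    0 < th a * (1 - 1 / a) - (1 / 2 + 3 * cc a) := by
  unfold th cc
  have h1 : (0 : ℝ) < a := by linarith
  have h2 : (0 : ℝ) < a - 1 := by linarith
  have e : (1 - 8 * ((a - 2) / (32 * (a - 1)))) * (1 - 1 / a)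
      - (1 / 2 + 3 * ((a - 2) / (32 * (a - 1)))) = (a - 2) * (5 * a - 8) / (32 * a * (a - 1)) := by
    field_simp
    ring
  rw [e]
  have h3 : 0 < (a - 2) * (5 * a - 8) := mul_pos (by linarith) (by linarith)
  positivity

theorem T2_NB : P2_NB := by
  intro a ha ε hε
  have ha0 : 0 < a := by linarith
  obtain ⟨hth1, hth2⟩ := th_bds ha
  have hc := cc_pos ha
  have hσ := slack ha
  set σ : ℝ := th a * (1 - 1 / a) - (1 / 2 + 3 * cc a) with hσd
  obtain ⟨y0, hy0⟩ := NBh.part2
  have hpw : ∀ᶠ X : ℕ in atTop, (20 : ℝ) ≤ (Real.log X) ^ ((a - 2) / 2) :=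
    ((tendsto_rpow_atTop (show 0 < (a - 2) / 2 by linarith)).comp
      tendsto_logN).eventually_ge_atTop 20
  have hev := (par_ev ha (max (max (8 / σ) (y0 : ℝ)) (max (4 / ε) 64))
    (min (ε / 2) (1 / 4)) (by positivity)).and hpw
  obtain ⟨X0, hX0⟩ := Filter.eventually_atTop.mp hev
  refine ⟨X0, fun X hX => ?_⟩
  obtain ⟨⟨hX1, hLM, hL1, hlM, hl1, hyp, hyM, hle, hyl, hyu⟩, hpw1⟩ := hX0 X hX
  obtain ⟨hk1, hk2⟩ := kA_bds ha (X := X) (by linarith) (by linarith)
  set L := Real.log (X : ℝ) with hL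
  set l := Real.log (yA a X : ℝ) with hl
  have hX0' : (0 : ℝ) < X := by linarith
  have hl0 : 0 < l := by linarith
  have hL0 : 0 < L := by linarith
  have m1 : 8 / σ ≤ l := ((le_max_left _ _).trans (le_max_left _ _)).trans hlM
  have m2 : (y0 : ℝ) ≤ yA a X := ((le_max_right _ _).trans (le_max_left _ _)).trans hyM
  have m3 : 4 / ε ≤ l := ((le_max_left _ _).trans (le_max_right _ _)).trans hlM
  have m4 : 64 ≤ l := ((le_max_right _ _).trans (le_max_right _ _)).trans hlM
  have m5 : 64 ≤ L := ((le_max_right _ _).trans (le_max_right _ _)).trans hLM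
  obtain ⟨hn1, hn2⟩ := hy0 (yA a X) (by exact_mod_cast m2)
  rw [← hl] at hn1 hn2
  set n : ℕ := (PA a X).card with hn
  have hnP : (PP (yA a X)).card = n := rfl
  rw [hnP] at hn1 hn2
  set k : ℕ := kA a X with hk
  set y : ℝ := (yA a X : ℝ) with hy
  have hsL : √L ≤ L := by
    rw [Real.sqrt_le_left (by linarith)]
    nlinarith only [hL1]
  have hs0 : 0 < √L := Real.sqrt_pos.2 hL0
  have hsq : √L * √L = L := Real.mul_self_sqrt hL0.le
  have hle1 : l ≤ ε / 2 * √L := hle.trans (mul_le_mul_of_nonneg_right (min_le_left _ _) hs0.le)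
  have hle2 : l ≤ 1 / 4 * √L := hle.trans (mul_le_mul_of_nonneg_right (min_le_right _ _) hs0.le)
  have hlL : l ≤ L := by linarith
  have hlL1 : 1 ≤ L / l := by
    rw [le_div_iff₀ hl0]
    linarith
  have hk3 : (k : ℝ) ≤ 2 * (L / l) := by
    have h1 : th a * L / l ≤ L / l := by
      refine div_le_div_of_nonneg_right ?_ hl0.le
      exact mul_le_of_le_one_left hL0.le hth2.le
    linarith
  have hk4 : 3 / 4 * (L / l) ≤ k := by
    refine le_trans ?_ hk1
    rw [mul_div_assoc]
    exact mul_le_mul_of_nonneg_right hth1.le (by positivity)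
  have hkpos : 1 ≤ k := by
    rw [hk]
    unfold kA
    omega
  have hyl2 : L ^ a / 5 ≤ y := hyl
  have hLa : L ^ a = L ^ 2 * (L ^ ((a - 2) / 2) * L ^ ((a - 2) / 2)) := by
    rw [← Real.rpow_add hL0, ← Real.rpow_natCast, ← Real.rpow_add hL0]
    congr 1
    push_cast
    ring
  set W : ℝ := L ^ ((a - 2) / 2) with hW
  have hW0 : 0 < W := by linarith
  -- the first claim
  have c1 : (k : ℝ) ^ 2 ≤ L ^ (-((a - 2) / 2)) * n := by
    have hneg : L ^ (-((a - 2) / 2)) = W⁻¹ := Real.rpow_neg hL0.le _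
    rw [hneg]
    have h1 : (k : ℝ) ^ 2 ≤ (2 * (L / l)) ^ 2 := pow_le_pow_left₀ (Nat.cast_nonneg _) hk3 2
    have h2 : (9 / 10 : ℝ) * (L ^ 2 * (W * W) / 5) / l ≤ n := by
      refine le_trans ?_ hn1
      refine div_le_div_of_nonneg_right ?_ hl0.le
      rw [← hLa]
      exact mul_le_mul_of_nonneg_left hyl2 (by norm_num)
    have h3 : (2 * (L / l)) ^ 2 ≤ W⁻¹ * ((9 / 10 : ℝ) * (L ^ 2 * (W * W) / 5) / l) := by
      have e1 : W⁻¹ * ((9 / 10 : ℝ) * (L ^ 2 * (W * W) / 5) / l)
          = L ^ 2 / l ^ 2 * (9 / 50 * W * l) := by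
        field_simp
        ring
      have e2 : (2 * (L / l)) ^ 2 = L ^ 2 / l ^ 2 * 4 := by
        field_simp
        ring
      rw [e1, e2]
      refine mul_le_mul_of_nonneg_left ?_ (by positivity)
      have h4 : 20 * 64 ≤ W * l := mul_le_mul hpw1 m4 (by norm_num) hW0.le
      linarith
    exact h1.trans (h3.trans (mul_le_mul_of_nonneg_left h2 (by positivity)))
  have c7 : 4 * (k : ℝ) ^ 2 ≤ n := by
    have hneg : L ^ (-((a - 2) / 2)) = W⁻¹ := Real.rpow_neg hL0.le _
    have h1 : W⁻¹ ≤ 1 / 4 := by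
      rw [inv_le_comm₀ hW0 (by norm_num)]
      norm_num
      linarith
    have h2 : L ^ (-((a - 2) / 2)) * n ≤ 1 / 4 * n := by
      rw [hneg]
      exact mul_le_mul_of_nonneg_right h1 (Nat.cast_nonneg _)
    linarith
  have cy : y ≤ (X : ℝ) ^ ε := by
    have h1 : y = Real.exp l := (Real.exp_log hyp).symm
    rw [h1, Real.rpow_def_of_pos hX0']
    refine Real.exp_le_exp.2 ?_
    have h2 : ε / 2 * √L ≤ ε * L := by
      have h4 := mul_le_mul_of_nonneg_left hsL hε.le
      have h5 : 0 ≤ ε * √L := by positivity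
      linarith
    have h3 : Real.log (X : ℝ) * ε = ε * L := by rw [hL]; ring
    rw [h3]
    linarith
  refine ⟨c1, ?_, ?_, ?_, ?_, cy, ?_, ?_⟩
  · -- the number of sets
    have hkn : 4 * k ≤ n := by
      have h1 : (1 : ℝ) ≤ k := by exact_mod_cast hkpos
      have h3 : (k : ℝ) ≤ (k : ℝ) ^ 2 := by nlinarith only [h1]
      have h2 : 4 * (k : ℝ) ≤ n := by linarith
      exact_mod_cast h2
    have hD : l * (1 - 1 / a) - 3 ≤ Real.log (3 * n / (4 * k)) := by
      have hk0 : (0 : ℝ) < k := by exact_mod_cast hkpos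
      have h1 : (27 / 80 : ℝ) * (y / L) ≤ 3 * n / (4 * k) := by
        have h2 : 3 * ((9 / 10 : ℝ) * y / l) / (4 * (2 * (L / l))) ≤ 3 * n / (4 * k) := by
          refine div_le_div₀ (by positivity) (by linarith) (by positivity) (by linarith)
        refine le_trans (le_of_eq ?_) h2
        field_simp
        ring
      have h3 : Real.log ((27 / 80 : ℝ) * (y / L)) ≤ Real.log (3 * n / (4 * k)) :=
        Real.log_le_log (by positivity) h1
      refine le_trans ?_ h3
      rw [Real.log_mul (by norm_num) (by positivity), Real.log_div hyp.ne' hL0.ne']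
      -- `L ≤ (5 y) ^ (1 / a)`
      have h4 : a * Real.log L ≤ l + Real.log 5 := by
        have h5 : L ^ a ≤ y * 5 := by linarith
        have h6 : Real.log (L ^ a) ≤ Real.log (y * 5) :=
          Real.log_le_log (Real.rpow_pos_of_pos hL0 _) h5
        rw [Real.log_rpow hL0, Real.log_mul hyp.ne' (by norm_num)] at h6
        exact h6
      have h5 : Real.log 5 ≤ 2 := by
        rw [Real.log_le_iff_le_exp (by norm_num)]
        have h6 := Real.exp_one_gt_d9
        have h7 : Real.exp 2 = Real.exp 1 * Real.exp 1 := by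
          rw [← Real.exp_add]
          norm_num
        rw [h7]
        nlinarith only [h6]
      have h6 : Real.log L ≤ l / a + 1 := by
        rw [div_add_one ha0.ne', le_div_iff₀ ha0]
        linarith
      have h7 : -2 ≤ Real.log (27 / 80 : ℝ) := by
        rw [Real.le_log_iff_exp_le (by norm_num)]
        have h8 : Real.exp (-2) = (Real.exp 1 * Real.exp 1)⁻¹ := by
          rw [← Real.exp_add, ← Real.exp_neg]
          norm_num
        rw [h8]
        have h9 := Real.exp_one_gt_d9
        rw [inv_le_comm₀ (by positivity) (by norm_num)]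
        norm_num
        nlinarith only [h9]
      have e : l * (1 - 1 / a) = l - l / a := by ring
      rw [e]
      have hll : Real.log y = l := rfl
      rw [hll]
      linarith
    have h1 := choose_exp hkpos hkn hD
    have h2 : (X : ℝ) ^ (1 / 2 + 3 * cc a) ≤ Real.exp (k * (l * (1 - 1 / a) - 3)) := by
      rw [Real.rpow_def_of_pos hX0']
      refine Real.exp_le_exp.2 ?_
      have hia : 0 < 1 - 1 / a := by
        rw [sub_pos, div_lt_one ha0]
        linarith
      have hDp : 0 ≤ l * (1 - 1 / a) - 3 := by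
        have : 1 / a < 1 / 2 := by
          rw [div_lt_div_iff₀ ha0 two_pos]
          linarith
        have h4 : 64 * (1 / 2) ≤ l * (1 - 1 / a) :=
          mul_le_mul m4 (by linarith) (by norm_num) hl0.le
        linarith
      have h3 : th a * L / l * (l * (1 - 1 / a) - 3) ≤ k * (l * (1 - 1 / a) - 3) :=
        mul_le_mul_of_nonneg_right hk1 hDp
      refine le_trans ?_ h3
      have e : th a * L / l * (l * (1 - 1 / a) - 3) = th a * (1 - 1 / a) * L - 3 * th a * L / l := by
        field_simp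
      rw [e]
      have h4 : th a * (1 - 1 / a) = σ + (1 / 2 + 3 * cc a) := by
        rw [hσd]
        ring
      rw [h4]
      have h5 : 3 * th a * L / l ≤ σ * L := by
        rw [div_le_iff₀ hl0]
        rw [div_le_iff₀ hσ] at m1
        have h6 : 3 * th a * L ≤ 8 * L := mul_le_mul_of_nonneg_right (by linarith) hL0.le
        have h7 := mul_le_mul_of_nonneg_right m1 hL0.le
        linarith
      have h6 : Real.log (X : ℝ) * (1 / 2 + 3 * cc a) = (1 / 2 + 3 * cc a) * L := by rw [hL]; ring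
      rw [h6]
      linarith
    unfold NA CA
    rw [← hn, ← hk]
    exact h2.trans h1
  · -- powers of two
    have h1 : (2 : ℝ) ^ k = Real.exp (k * Real.log 2) := by
      rw [← Real.rpow_natCast, Real.rpow_def_of_pos two_pos]
      congr 1
      ring
    rw [h1, Real.rpow_def_of_pos hX0']
    refine Real.exp_le_exp.2 ?_
    have h2 : Real.log 2 ≤ 1 := by
      have := Real.log_two_lt_d9
      linarith
    have h3 : (k : ℝ) * Real.log 2 ≤ k * 1 := mul_le_mul_of_nonneg_left h2 (Nat.cast_nonneg _)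
    have h4 : 2 * (L / l) ≤ ε * L := by
      rw [← mul_div_assoc, div_le_iff₀ hl0]
      rw [div_le_iff₀ hε] at m3
      have h5 := mul_le_mul_of_nonneg_right m3 hL0.le
      linarith [mul_pos hε hL0]
    have h5 : Real.log (X : ℝ) * ε = ε * L := by rw [hL]; ring
    rw [h5]
    linarith
  · -- `k ≤ L`
    have h4 : 2 * (L / l) ≤ L := by
      rw [← mul_div_assoc, div_le_iff₀ hl0]
      have h5 := mul_le_mul_of_nonneg_left m4 hL0.le
      linarith
    linarith
  · -- `√L ≤ k`
    refine le_trans ?_ hk4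
    rw [← mul_div_assoc, le_div_iff₀ hl0]
    have h1 : √L * l ≤ √L * (1 / 4 * √L) := mul_le_mul_of_nonneg_left hle2 hs0.le
    linarith
  · have : ((4 * k ^ 2 : ℕ) : ℝ) ≤ n := by
      push_cast
      exact c7
    exact_mod_cast this
  · refine le_trans ?_ cy
    have h1 : n ≤ yA a X := by
      rw [← hnP]
      unfold PP
      refine (Finset.card_filter_le _ _).trans ?_
      rw [Nat.card_Ioc]
      omega
    rw [hy]
    exact_mod_cast h1

end Pool.Agent.Run7.h811.CG
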