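import Pool.Agent.H38R2.CG.TB3a

/-!
P_TB3c: bound for the part at the primes dividing Q.
-/

set_option autoImplicit false

namespace Pool.Agent.Run7.h811.CG

open Pool.Agent.H38R2.CG Pool.Agent.H38R2.CG.TB3ah

theorem gcd_two_mul {g w : ℕ} (h : g.Coprime w) : Nat.gcd (2 * g) w ∣ 2 := by
  have h1 : Nat.gcd (2 * g) w ∣ 2 * Nat.gcd g w := by
    rw [← Nat.gcd_mul_left]
    exact Nat.dvd_gcd (Nat.gcd_dvd_left _ _) ((Nat.gcd_dvd_right _ _).trans (Dvd.intro_left 2 rfl))
  rwa [h.gcd_eq_one, mul_one] at h1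

theorem R_bound (g m : ℕ) (hg : 1 ≤ g) (hm : Squarefree m) (w : ℕ) : 1 ≤ w → g.Coprime w →
    R (w ^ 2) ((2 * g) ^ 2 * m) ≤ (if 2 ∣ w then 4 else 1) * 2 ^ w.primeFactors.card := by
  induction w using Nat.recOnPosPrimePosCoprime with
  | prime_pow p n hp hn =>
    intro _ hgw
    refine (pp_bound p n (2 * g) m hp (by omega) hm).trans ?_
    rw [Nat.primeFactors_prime_pow hn.ne' hp, Finset.card_singleton, pow_one]
    have hd := gcd_two_mul hgw
    by_cases hp2 : p = 2
    · subst hp2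
      rw [if_pos rfl, if_pos (dvd_pow_self 2 hn.ne')]
      exact Nat.mul_le_mul_left _ (Nat.le_of_dvd two_pos hd)
    · have h2 : ¬ 2 ∣ p ^ n := by
        intro h
        exact hp2 ((Nat.prime_dvd_prime_iff_eq Nat.prime_two hp).1
          (Nat.prime_two.dvd_of_dvd_pow h)).symm
      rw [if_neg hp2, if_neg h2]
      have h3 : Nat.gcd (2 * g) (p ^ n) = 1 := by
        rcases (Nat.dvd_prime Nat.prime_two).1 hd with h | h
        · exact h
        · exact absurd (h ▸ Nat.gcd_dvd_right (2 * g) (p ^ n)) h2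
      rw [h3]
  | zero => intro h; omega
  | one =>
    intro _ _
    have : R (1 ^ 2) ((2 * g) ^ 2 * m) ≤ 1 := by
      unfold R
      refine (Finset.card_filter_le _ _).trans ?_
      simp
    simpa using this
  | coprime a b ha hb hab iha ihb =>
    intro _ hgw
    have hga : g.Coprime a := hgw.coprime_dvd_right (Dvd.intro _ rfl)
    have hgb : g.Coprime b := hgw.coprime_dvd_right (Dvd.intro_left _ rfl)
    rw [mul_pow]
    refine (R_mul _ (Nat.Coprime.pow 2 2 hab)).trans ?_
    refine (Nat.mul_le_mul (iha (by omega) hga) (ihb (by omega) hgb)).trans ?_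
    rw [Nat.Coprime.primeFactors_mul hab, Finset.card_union_of_disjoint
      (Nat.Coprime.disjoint_primeFactors hab), pow_add]
    by_cases h2a : 2 ∣ a
    · have h2b : ¬ 2 ∣ b := by
        intro h
        have := Nat.dvd_gcd h2a h
        rw [hab.gcd_eq_one] at this
        omega
      rw [if_pos h2a, if_neg h2b, if_pos (Dvd.dvd.mul_right h2a b)]
      apply le_of_eq
      ring
    · by_cases h2b : 2 ∣ b
      · rw [if_neg h2a, if_pos h2b, if_pos (Dvd.dvd.mul_left h2b a)]
        apply le_of_eq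
        ring
      · have h2 : ¬ 2 ∣ a * b := by
          intro h
          rcases (Nat.prime_two.dvd_mul).1 h with h | h
          · exact h2a h
          · exact h2b h
        rw [if_neg h2a, if_neg h2b, if_neg h2]
        apply le_of_eq
        ring

theorem qpart_dvd (z v : ℕ) (hv : 1 ≤ v) : qpart z v ∣ v := by
  have h : ∏ p ∈ v.primeFactors, p ^ (v.factorization p) = v :=
    Nat.prod_factorization_pow_eq_self (by omega)
  conv_rhs => rw [← h]
  unfold qpart
  exact Finset.prod_dvd_prod_of_subset _ _ _ (Finset.filter_subset _ _)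

theorem qpart_primeFactors (z v : ℕ) {p : ℕ} (hp : p.Prime) (h : p ∣ qpart z v) : p ∣ Qz z := by
  unfold qpart at h
  obtain ⟨q, hq, hpq⟩ := (hp.prime.dvd_finsetProd_iff _).1 h
  obtain ⟨hq1, hq2⟩ := Finset.mem_filter.1 hq
  have h1 : p ∣ q := hp.dvd_of_dvd_pow hpq
  have h2 : p = q := (Nat.prime_dvd_prime_iff_eq hp (Nat.prime_of_mem_primeFactors hq1)).1 h1
  rw [h2]
  exact hq2

theorem qpart_pos (z v : ℕ) : 0 < qpart z v := by
  unfold qpart
  exact Finset.prod_pos fun p hp => pow_pos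
    (Nat.prime_of_mem_primeFactors (Finset.mem_filter.1 hp).1).pos _

theorem Qz_pos (z : ℕ) : 0 < Qz z := by
  unfold Qz
  refine Nat.mul_pos (by norm_num) (Finset.prod_pos fun l hl => ?_)
  exact pow_pos (Finset.mem_filter.1 hl).2.pos 2

theorem prime_dvd_Qz {z p : ℕ} (hp : p.Prime) (h : p ∣ Qz z) : p = 2 ∨ (3 ≤ p ∧ p ≤ z) := by
  unfold Qz at h
  rcases hp.dvd_mul.1 h with h1 | h1
  · left
    have : p ∣ 2 ^ 4 := by norm_num; exact h1
    exact (Nat.prime_dvd_prime_iff_eq hp Nat.prime_two).1 (hp.dvd_of_dvd_pow this)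
  · right
    obtain ⟨q, hq, hpq⟩ := (hp.prime.dvd_finsetProd_iff _).1 h1
    obtain ⟨hq1, hq2⟩ := Finset.mem_filter.1 hq
    have h2 : p = q := (Nat.prime_dvd_prime_iff_eq hp hq2).1 (hp.dvd_of_dvd_pow hpq)
    rw [h2]
    exact Finset.mem_Icc.1 hq1

theorem rhoQ_le (z r n v : ℕ) (hv : 1 ≤ v) :
    rhoQ z r n v ≤ Qz z * R ((qpart z v) ^ 2) (4 * n) := by
  classical
  unfold rhoQ R
  set w := qpart z v with hw
  have hwv : w ∣ v := qpart_dvd z v hv
  rw [← Finset.card_range (Qz z), ← Finset.card_product, Finset.card_range]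
  have hv2 : 0 < w ^ 2 := pow_pos (qpart_pos z v) 2
  apply Finset.card_le_card_of_injOn (fun u => (u / w ^ 2, u % w ^ 2))
  · intro u hu
    simp only [Finset.coe_filter, Finset.mem_range, Set.mem_ofPred_eq] at hu
    simp only [Finset.coe_product, Finset.coe_range, Finset.coe_filter, Finset.mem_range,
      Set.mem_prod, Set.mem_Iio, Set.mem_ofPred_eq]
    refine ⟨Nat.div_lt_of_lt_mul (by rw [mul_comm]; exact hu.1), Nat.mod_lt _ hv2, ?_⟩
    have h1 : u ^ 2 ≡ 4 * n + r * v ^ 2 [MOD w ^ 2] := hu.2.of_dvd (Dvd.intro_left _ rfl)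
    have h2 : 4 * n + r * v ^ 2 ≡ 4 * n [MOD w ^ 2] := by
      have : r * v ^ 2 ≡ 0 [MOD w ^ 2] := (Nat.modEq_zero_iff_dvd).2
        (Dvd.dvd.mul_left (pow_dvd_pow_of_dvd hwv 2) r)
      simpa using (Nat.ModEq.refl (4 * n)).add this
    exact ((Nat.mod_modEq u (w ^ 2)).pow 2).trans (h1.trans h2)
  · intro u hu w' hw' huw
    simp only [Prod.mk.injEq] at huw
    rw [← Nat.div_add_mod u (w ^ 2), ← Nat.div_add_mod w' (w ^ 2), huw.1, huw.2]

theorem T_TB3c : P_TB3c := by
  intro z r n v hv hn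
  have hQ := Qz_pos z
  have h16 : 16 ∣ Qz z := Dvd.intro _ rfl
  have hn0 : n ≠ 0 := by
    rintro rfl
    rw [Nat.coprime_zero_left] at hn
    rw [hn] at h16
    norm_num at h16
  obtain ⟨m, g, hgm, hm⟩ := Nat.sq_mul_squarefree n
  have hg1 : 1 ≤ g := by
    rcases Nat.eq_zero_or_pos g with h | h
    · subst h
      simp at hgm
      omega
    · exact h
  have h4n : 4 * n = (2 * g) ^ 2 * m := by
    rw [← hgm]
    ring
  have hgn : g ∣ n := by
    rw [← hgm]
    exact Dvd.dvd.mul_right (dvd_pow_self g two_ne_zero) m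
  have hgw : g.Coprime (qpart z v) := by
    refine Nat.Coprime.coprime_dvd_left hgn ?_
    rw [Nat.coprime_iff_gcd_eq_one]
    by_contra hne
    obtain ⟨p, hp, hpd⟩ := Nat.exists_prime_and_dvd hne
    have h1 : p ∣ n := hpd.trans (Nat.gcd_dvd_left _ _)
    have h2 : p ∣ Qz z := qpart_primeFactors z v hp (hpd.trans (Nat.gcd_dvd_right _ _))
    have h3 : p ∣ Nat.gcd n (Qz z) := Nat.dvd_gcd h1 h2
    rw [Nat.coprime_iff_gcd_eq_one.1 hn] at h3
    exact hp.one_lt.ne' (Nat.dvd_one.1 h3)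
  have h1 := rhoQ_le z r n v hv
  have h2 := R_bound g m hg1 hm (qpart z v) (qpart_pos z v) hgw
  rw [← h4n] at h2
  have h3 : (qpart z v).primeFactors.card ≤ z + 1 := by
    have hsub : (qpart z v).primeFactors ⊆ insert 2 (Finset.Icc 3 z) := by
      intro p hp
      have hpp := Nat.prime_of_mem_primeFactors hp
      rcases prime_dvd_Qz hpp (qpart_primeFactors z v hpp (Nat.dvd_of_mem_primeFactors hp)) with
        h | h
      · rw [h]
        exact Finset.mem_insert_self _ _
      · exact Finset.mem_insert_of_mem (Finset.mem_Icc.2 h)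
    refine (Finset.card_le_card hsub).trans ((Finset.card_insert_le _ _).trans ?_)
    rw [Nat.card_Icc]
    omega
  have h4 : (if 2 ∣ qpart z v then 4 else 1) ≤ 4 := by split_ifs <;> omega
  calc rhoQ z r n v ≤ Qz z * R ((qpart z v) ^ 2) (4 * n) := h1
    _ ≤ Qz z * ((if 2 ∣ qpart z v then 4 else 1) * 2 ^ (qpart z v).primeFactors.card) :=
        Nat.mul_le_mul_left _ h2
    _ ≤ Qz z * (4 * 2 ^ (z + 1)) :=
        Nat.mul_le_mul_left _ (Nat.mul_le_mul h4 (Nat.pow_le_pow_right two_pos h3))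
    _ = Qz z * 8 * 2 ^ z := by
        rw [pow_succ]
        ring

end Pool.Agent.Run7.h811.CG
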